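import Mathlib

namespace Pool.Agent.Results.MP_36d240_al.NotTransitive

/-- Primary conjugacy in a semigroup `S`: `a = u v` and `b = v u` for some `u, v` in `S` with an
identity adjoined. -/
def PConj {S : Type} [Semigroup S] (a b : S) : Prop :=
  ∃ u v : WithOne S, (a : WithOne S) = u * v ∧ (b : WithOne S) = v * u

abbrev F := FreeGroup (Fin 3)

def gu : F := FreeGroup.of 0
def gv : F := FreeGroup.of 1
def gx : F := FreeGroup.of 2
def gy : F := gx⁻¹ * gv * gu

def deg : F →* Multiplicative ℤ := FreeGroup.lift (fun _ => Multiplicative.ofAdd 1)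

def T : Subsemigroup F := Subsemigroup.closure {gu, gv, gx, gy}

theorem T_deg (p : F) (hp : p ∈ T) :
    1 ≤ Multiplicative.toAdd (deg p) ∧ (Multiplicative.toAdd (deg p) = 1 →
      p = gu ∨ p = gv ∨ p = gx ∨ p = gy) := by
  induction hp using Subsemigroup.closure_induction with
  | mem x hx =>
    simp only [Set.mem_insert_iff, Set.mem_singleton_iff] at hx
    refine ⟨?_, fun _ => hx⟩
    rcases hx with rfl | rfl | rfl | rfl <;>
      simp [deg, gu, gv, gx, gy]
  | mul x y hx hy h1 h2 =>
    have h3 : Multiplicative.toAdd (deg (x * y)) =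
      Multiplicative.toAdd (deg x) + Multiplicative.toAdd (deg y) := by
      rw [map_mul]; rfl
    rw [h3]
    refine ⟨by linarith [h1.1, h2.1], fun h => ?_⟩
    exfalso
    linarith [h1.1, h2.1]

theorem key (p q : F) (hp : p = gu ∨ p = gv ∨ p = gx ∨ p = gy)
    (hq : q = gu ∨ q = gv ∨ q = gx ∨ q = gy) (h1 : gu * gv = p * q) (h2 : gy * gx = q * p) :
    False := by
  rcases hp with rfl | rfl | rfl | rfl <;> rcases hq with rfl | rfl | rfl | rfl <;>
    revert h1 h2 <;> decide

theorem result : ∃ (S : Type) (_ : Semigroup S), IsCancelMul S ∧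
    (∃ (G : Type) (_ : Group G) (f : S →ₙ* G), Function.Injective f) ∧
    ∃ a b c : S, PConj a b ∧ PConj b c ∧ ¬ PConj a c := by
  refine ⟨T, inferInstance, ?_, ⟨F, inferInstance, MulMemClass.subtype T, Subtype.val_injective⟩, ?_⟩
  · refine { mul_left_cancel := ?_, mul_right_cancel := ?_ }
    · intro a b c h
      have h' : (a : F) * b = a * c := congrArg Subtype.val h
      exact Subtype.ext (mul_left_cancel h')
    · intro a b c h
      have h' : (b : F) * a = c * a := congrArg Subtype.val h
      exact Subtype.ext (mul_right_cancel h')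
  · have hu : gu ∈ T := Subsemigroup.subset_closure (by simp)
    have hv : gv ∈ T := Subsemigroup.subset_closure (by simp)
    have hx : gx ∈ T := Subsemigroup.subset_closure (by simp)
    have hy : gy ∈ T := Subsemigroup.subset_closure (by simp)
    let U : T := ⟨gu, hu⟩
    let V : T := ⟨gv, hv⟩
    let X : T := ⟨gx, hx⟩
    let Y : T := ⟨gy, hy⟩
    refine ⟨U * V, V * U, Y * X, ⟨U, V, ?_, ?_⟩, ⟨X, Y, ?_, ?_⟩, ?_⟩
    · rw [← WithOne.coe_mul]
    · rw [← WithOne.coe_mul]
    · rw [← WithOne.coe_mul]
      congr 1
      apply Subtype.ext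
      show gv * gu = gx * gy
      rw [gy]; group
    · rw [← WithOne.coe_mul]
    · rintro ⟨p, q, h1, h2⟩
      revert h1 h2
      refine WithOne.cases_on p ?_ ?_
      · refine WithOne.cases_on q ?_ ?_
        · intro h1 h2
          rw [mul_one] at h1
          exact WithOne.coe_ne_one h1
        · intro q h1 h2
          rw [one_mul] at h1
          rw [mul_one] at h2
          have h3 := WithOne.coe_inj.mp (h1.trans h2.symm)
          have h4 : gu * gv = gy * gx := congrArg Subtype.val h3
          revert h4
          decide
      · intro p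
        refine WithOne.cases_on q ?_ ?_
        · intro h1 h2
          rw [mul_one] at h1
          rw [one_mul] at h2
          have h3 := WithOne.coe_inj.mp (h1.trans h2.symm)
          have h4 : gu * gv = gy * gx := congrArg Subtype.val h3
          revert h4
          decide
        · intro q h1 h2
          rw [← WithOne.coe_mul] at h1 h2
          have h3 : gu * gv = (p : F) * q := congrArg Subtype.val (WithOne.coe_inj.mp h1)
          have h4 : gy * gx = (q : F) * p := congrArg Subtype.val (WithOne.coe_inj.mp h2)
          have hp := T_deg p p.2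
          have hq := T_deg q q.2
          have h5 : Multiplicative.toAdd (deg (gu * gv)) = 2 := by
            simp [deg, gu, gv]
          rw [h3, map_mul] at h5
          have h6 : Multiplicative.toAdd (deg (p : F)) + Multiplicative.toAdd (deg (q : F)) = 2 := h5
          exact key p q (hp.2 (by linarith [hp.1, hq.1])) (hq.2 (by linarith [hp.1, hq.1])) h3 h4

end Pool.Agent.Results.MP_36d240_al.NotTransitive
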